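import Pool.Agent.H753R3.OB.Lists

set_option autoImplicit false

/-!
# Affine isometric actions on reflexive spaces have bounded orbits
-/

namespace Pool.Agent.H753R3.OB

open Set Topology

variable {E : Type} [NormedAddCommGroup E] [NormedSpace ℝ E]

theorem rho_mul (ρ : GG →* (E ≃ᵃⁱ[ℝ] E)) (g h : GG) (v : E) : ρ (g * h) v = ρ g (ρ h v) := by
  rw [map_mul]; rfl

theorem rho_one (ρ : GG →* (E ≃ᵃⁱ[ℝ] E)) (v : E) : ρ 1 v = v := by
  rw [map_one]; rfl

theorem R_mul (ρ : GG →* (E ≃ᵃⁱ[ℝ] E)) (g h : GG) (v : E) :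
    dist (ρ (g * h) v) v ≤ dist (ρ g v) v + dist (ρ h v) v := by
  rw [rho_mul]
  have h1 := dist_triangle (ρ g (ρ h v)) (ρ g v) v
  have h2 : dist (ρ g (ρ h v)) (ρ g v) = dist (ρ h v) v := (ρ g).dist_map _ _
  linarith

theorem dist_R (ρ : GG →* (E ≃ᵃⁱ[ℝ] E)) (g h : GG) (v : E) :
    dist (ρ g v) (ρ h v) = dist (ρ (g⁻¹ * h) v) v := by
  have h1 : ρ h v = ρ g (ρ (g⁻¹ * h) v) := by
    rw [← rho_mul, mul_inv_cancel_left]
  rw [h1, (ρ g).dist_map, dist_comm]

theorem R_inv (ρ : GG →* (E ≃ᵃⁱ[ℝ] E)) (g : GG) (v : E) :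
    dist (ρ g⁻¹ v) v = dist (ρ g v) v := by
  have := dist_R ρ g 1 v
  rw [rho_one, mul_one] at this
  exact this.symm

theorem exists_stab (ρ : GG →* (E ≃ᵃⁱ[ℝ] E)) (hρ : ∀ v : E, Continuous (fun g : GG => ρ g v))
    (v : E) (ε : ℝ) (hε : 0 < ε) : ∃ n, 0 < n ∧ ∀ g ∈ stab n, dist (ρ g v) v ≤ ε := by
  have h1 : {g : GG | dist (ρ g v) v < ε} ∈ 𝓝 (1 : GG) := by
    have hc : Continuous (fun g : GG => dist (ρ g v) v) := (hρ v).dist continuous_const
    apply (isOpen_lt hc continuous_const).mem_nhds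
    show dist (ρ 1 v) v < ε
    rw [rho_one, dist_self]; exact hε
  obtain ⟨n, hn⟩ := stab_basis _ h1
  refine ⟨n + 1, Nat.succ_pos _, fun g hg => ?_⟩
  have : g ∈ (stab n : Set GG) := fun i hi => hg i (Nat.lt_succ_of_lt hi)
  exact (hn this).le

/-- bounded orbits -/
theorem bounded_orbits (hr : Function.Surjective (NormedSpace.inclusionInDoubleDual ℝ E))
    (ρ : GG →* (E ≃ᵃⁱ[ℝ] E)) (hρ : ∀ v : E, Continuous (fun g : GG => ρ g v)) (v : E) :
    ∃ M : ℝ, ∀ g : GG, dist (ρ g v) v ≤ M := by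
  classical
  obtain ⟨n, hn0, hn⟩ := exists_stab ρ hρ v 1 one_pos
  -- same type
  have htype : ∀ g g' : GG, (∀ a < n, ∀ b < n, dd a (ap g b) = dd a (ap g' b)) →
      dist (ρ g' v) v ≤ dist (ρ g v) v + 2 := by
    intro g g' h
    obtain ⟨α, hα, β, hβ, e⟩ := double_coset n g g' h
    rw [e]
    have h1 := R_mul ρ (α * g) β v
    have h2 := R_mul ρ α g v
    have h3 := hn α hα
    have h4 := hn β hβ
    linarith
  -- constant types
  have hconst : ∀ D : ℕ, ∃ C : ℝ, 0 ≤ C ∧ ∀ g : GG, (∀ a < n, ∀ b < n, dd a (ap g b) = D) →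
      dist (ρ g v) v ≤ C := by
    intro D
    by_cases hg : ∃ g : GG, ∀ a < n, ∀ b < n, dd a (ap g b) = D
    · obtain ⟨g0, hg0⟩ := hg
      refine ⟨dist (ρ g0 v) v + 2, by positivity, fun g hg => ?_⟩
      exact htype g0 g (fun a ha b hb => by rw [hg0 a ha b hb, hg a ha b hb])
    · exact ⟨0, le_rfl, fun g hgg => absurd ⟨g, hgg⟩ hg⟩
  choose C hC0 hC using hconst
  -- K
  obtain ⟨K, hK1, hK⟩ : ∃ K : ℕ, 1 ≤ K ∧ ∀ a < n, ∀ b < n, dd a b ≤ K := by
    refine ⟨(Finset.range n ×ˢ Finset.range n).sup (fun p => dd p.1 p.2) + 1, by omega, ?_⟩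
    intro a ha b hb
    have hm : (a, b) ∈ Finset.range n ×ˢ Finset.range n :=
      Finset.mem_product.2 ⟨Finset.mem_range.2 ha, Finset.mem_range.2 hb⟩
    have := Finset.le_sup (f := fun p : ℕ × ℕ => dd p.1 p.2) hm
    exact Nat.le_succ_of_le this
  obtain ⟨gl, hgl⟩ := exists_copies n K hn0 hK
  have hdist : ∀ l l' : List ℕ, l ≠ l' →
      dist (ρ (gl l) v) (ρ (gl l') v) ≤ C (K * max 1 (dI l l')) := by
    intro l l' hne
    rw [dist_R]
    apply hC
    intro a ha b hb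
    rw [← ap_iso (gl l) a, ap_mul, ap_ap_inv]
    exact hgl l l' hne a ha b hb
  -- the key bound
  have hkey : ∀ k : ℕ, 1 ≤ k → ∀ g : GG, (∀ a < n, ∀ b < n, dd a (ap g b) = K * k) →
      dist (ρ g v) v ≤ 2 * (C K + 1) + 2 := by
    intro k hk g hg
    set f : List ℕ → E := fun l => ρ (gl l) v with hf
    have hbd : ∀ l : List ℕ, l.length = k →
        ‖f l‖ ≤ ‖f []‖ + ∑ j ∈ Finset.range (k + 1), C (K * max 1 j) := by
      intro l hl
      have hne : ([] : List ℕ) ≠ l := by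
        intro h; rw [← h] at hl; simp at hl; omega
      have h1 := hdist [] l hne
      have h2 : dI [] l ≤ k := dI_le_max [] l k (by simp) hl.le
      have h3 : C (K * max 1 (dI [] l)) ≤ ∑ j ∈ Finset.range (k + 1), C (K * max 1 j) :=
        Finset.single_le_sum (f := fun j => C (K * max 1 j)) (fun j _ => hC0 _)
          (Finset.mem_range.2 (by omega))
      have h4 : ‖f l‖ ≤ ‖f []‖ + dist (f []) (f l) := by
        rw [dist_eq_norm]
        have := norm_sub_norm_le (f l) (f [])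
        rw [norm_sub_rev] at this
        linarith
      have h5 : dist (f []) (f l) ≤ C (K * max 1 (dI [] l)) := h1
      linarith
    have hC' : ∀ l l' : List ℕ, l.length = k → l'.length = k → Itl 0 l l' →
        ‖f l - f l'‖ ≤ C K := by
      intro l l' hl hl' hi
      by_cases hne : l = l'
      · rw [hne, sub_self, norm_zero]; exact hC0 K
      · have h1 := hdist l l' hne
        have h2 := dI_itl l l' hi
        have h3 : max 1 (dI l l') = 1 := by omega
        rw [h3, mul_one, dist_eq_norm] at h1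
        exact h1
    obtain ⟨l, l', hl, hl', hi1, hi2, hfin⟩ := kalton hr k f
      (‖f []‖ + ∑ j ∈ Finset.range (k + 1), C (K * max 1 j))
      (add_nonneg (norm_nonneg _) (Finset.sum_nonneg fun j _ => hC0 _)) hbd (C K) hC'
    have hfar := dI_far l l' k hl hl' hi2
    have hne : l ≠ l' := by
      intro h
      rw [← h] at hfar
      have : dI l l = 0 := by
        apply Nat.eq_zero_of_le_zero
        apply dI_le
        intro t; simp
      omega
    have htp : ∀ a < n, ∀ b < n, dd a (ap ((gl l)⁻¹ * gl l') b) = K * k := by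
      intro a ha b hb
      rw [← ap_iso (gl l) a, ap_mul, ap_ap_inv, hgl l l' hne a ha b hb, hfar]
      congr 1
      omega
    have h1 := htype ((gl l)⁻¹ * gl l') g (fun a ha b hb => by
      rw [htp a ha b hb, hg a ha b hb])
    rw [← dist_R] at h1
    have h2 : dist (ρ (gl l) v) (ρ (gl l') v) ≤ 2 * (C K + 1) := by
      rw [dist_eq_norm]; exact hfin
    linarith
  -- conclusion
  refine ⟨2 * (2 * (C K + 1) + 2), fun g => ?_⟩
  set S : List ℕ := List.range n ++ (List.range n).map (ap g) with hS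
  obtain ⟨k, hk1, hk⟩ : ∃ k : ℕ, 1 ≤ k ∧ ∀ x ∈ S, ∀ y ∈ S, dd x y ≤ k := by
    refine ⟨(S.toFinset ×ˢ S.toFinset).sup (fun p => dd p.1 p.2) + 1, by omega, ?_⟩
    intro x hx y hy
    have hm : (x, y) ∈ S.toFinset ×ˢ S.toFinset :=
      Finset.mem_product.2 ⟨List.mem_toFinset.2 hx, List.mem_toFinset.2 hy⟩
    have := Finset.le_sup (f := fun p : ℕ × ℕ => dd p.1 p.2) hm
    exact Nat.le_succ_of_le this
  have hKk : k ≤ K * k := Nat.le_mul_of_pos_left k hK1
  have hrange : ∀ a < n, a ∈ S := fun a ha =>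
    List.mem_append.2 (Or.inl (List.mem_range.2 ha))
  have hmap : ∀ a < n, ap g a ∈ S := fun a ha =>
    List.mem_append.2 (Or.inr (List.mem_map.2 ⟨a, List.mem_range.2 ha, rfl⟩))
  obtain ⟨z, hz1, hz2⟩ := free_copy S n (K * k)
    (fun x hx y hy => by have := hk x hx y hy; omega)
    (fun a ha b hb => by have := hk a (hrange a ha) b (hrange b hb); omega)
  obtain ⟨h, hh⟩ := exists_G_fun n z hz1
  have h1 : dist (ρ h v) v ≤ 2 * (C K + 1) + 2 := hkey k hk1 h (fun a ha b hb => by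
    rw [hh b hb]; exact hz2 b hb a (hrange a ha))
  have h2 : dist (ρ (g⁻¹ * h) v) v ≤ 2 * (C K + 1) + 2 := hkey k hk1 _ (fun a ha b hb => by
    rw [← ap_iso g a, ap_mul, ap_ap_inv, hh b hb]
    exact hz2 b hb _ (hmap a ha))
  rw [← dist_R] at h2
  have h3 := dist_triangle (ρ g v) (ρ h v) v
  linarith

end Pool.Agent.H753R3.OB
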