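import Pool.Agent.H753R3.OB.Homog

set_option autoImplicit false

/-!
# The isometry group as a non-Archimedean Polish group
-/

namespace Pool.Agent.H753R3.OB

open Set Topology

/-- the defining set -/
def GSet : Set ((ℕ → ℕ) × (ℕ → ℕ)) :=
  {q | (∀ i, q.1 (q.2 i) = i) ∧ (∀ i, q.2 (q.1 i) = i) ∧ ∀ i j, dd (q.1 i) (q.1 j) = dd i j}

/-- isometric bijections of `(ℕ, dd)` -/
def GG : Type := GSet

instance : TopologicalSpace GG := inferInstanceAs (TopologicalSpace GSet)

theorem continuous_ev : Continuous (fun p : (ℕ → ℕ) × (ℕ → ℕ) => fun n => p.1 (p.2 n)) := by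
  refine continuous_pi fun n => ?_
  rw [continuous_iff_continuousAt]
  intro p0
  have c1 : Continuous (fun p : (ℕ → ℕ) × (ℕ → ℕ) => p.2 n) :=
    (continuous_apply n).comp continuous_snd
  have c2 : Continuous (fun p : (ℕ → ℕ) × (ℕ → ℕ) => p.1 (p0.2 n)) :=
    (continuous_apply (p0.2 n)).comp continuous_fst
  have h1 : ∀ᶠ p in 𝓝 p0, p.2 n = p0.2 n :=
    c1.continuousAt.eventually ((isOpen_discrete {p0.2 n}).mem_nhds rfl)
  have h2 : ∀ᶠ p in 𝓝 p0, p.1 (p0.2 n) = p0.1 (p0.2 n) :=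
    c2.continuousAt.eventually ((isOpen_discrete {p0.1 (p0.2 n)}).mem_nhds rfl)
  refine Filter.Tendsto.congr' ?_ tendsto_const_nhds
  filter_upwards [h1, h2] with p e1 e2
  rw [e1, e2]

theorem isClosed_GSet : IsClosed GSet := by
  have e : GSet = {q : (ℕ → ℕ) × (ℕ → ℕ) | (fun n => q.1 (q.2 n)) = id} ∩
      ({q : (ℕ → ℕ) × (ℕ → ℕ) | (fun n => q.2 (q.1 n)) = id} ∩
      ⋂ i, ⋂ j, {q : (ℕ → ℕ) × (ℕ → ℕ) | dd (q.1 i) (q.1 j) = dd i j}) := by
    ext q
    simp only [GSet, mem_ofPred_eq, mem_inter_iff, mem_iInter, funext_iff, id]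
  rw [e]
  refine IsClosed.inter (isClosed_eq continuous_ev continuous_const) (IsClosed.inter
    (isClosed_eq (continuous_ev.comp continuous_swap) continuous_const) ?_)
  refine isClosed_iInter fun i => isClosed_iInter fun j => ?_
  refine isClosed_eq ?_ continuous_const
  have h : Continuous (fun p : ℕ × ℕ => dd p.1 p.2) := continuous_of_discreteTopology
  have h' : Continuous (fun q : (ℕ → ℕ) × (ℕ → ℕ) => ((q.1 i, q.1 j) : ℕ × ℕ)) :=
    ((continuous_apply i).comp continuous_fst).prodMk ((continuous_apply j).comp continuous_fst)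
  exact h.comp h'

instance : PolishSpace GG := isClosed_GSet.polishSpace

/-- underlying function -/
def ap (g : GG) (i : ℕ) : ℕ := g.1.1 i
/-- inverse function -/
def ai (g : GG) (i : ℕ) : ℕ := g.1.2 i

theorem ap_ai (g : GG) (i : ℕ) : ap g (ai g i) = i := g.2.1 i
theorem ai_ap (g : GG) (i : ℕ) : ai g (ap g i) = i := g.2.2.1 i
theorem ap_iso (g : GG) (i j : ℕ) : dd (ap g i) (ap g j) = dd i j := g.2.2.2 i j

theorem GG_ext {g h : GG} (e : ∀ i, ap g i = ap h i) : g = h := by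
  apply Subtype.ext
  apply Prod.ext
  · funext i; exact e i
  · funext i
    show ai g i = ai h i
    have h1 := ai_ap g (ai h i)
    rw [e, ap_ai] at h1
    exact h1

/-- constructor -/
def mkG (f g : ℕ → ℕ) (h1 : ∀ i, f (g i) = i) (h2 : ∀ i, g (f i) = i)
    (h3 : ∀ i j, dd (f i) (f j) = dd i j) : GG := ⟨(f, g), h1, h2, h3⟩

instance : Mul GG := ⟨fun g h => ⟨(fun i => ap g (ap h i), fun i => ai h (ai g i)),
  fun i => by show ap g (ap h (ai h (ai g i))) = i; rw [ap_ai, ap_ai],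
  fun i => by show ai h (ai g (ap g (ap h i))) = i; rw [ai_ap, ai_ap],
  fun i j => by show dd (ap g (ap h i)) (ap g (ap h j)) = dd i j; rw [ap_iso, ap_iso]⟩⟩

instance : One GG := ⟨⟨(id, id), fun i => rfl, fun i => rfl, fun i j => rfl⟩⟩

instance : Inv GG := ⟨fun g => ⟨(fun i => ai g i, fun i => ap g i), fun i => ai_ap g i,
  fun i => ap_ai g i, fun i j => by
    show dd (ai g i) (ai g j) = dd i j
    rw [← ap_iso g, ap_ai, ap_ai]⟩⟩

theorem ap_mul (g h : GG) (i : ℕ) : ap (g * h) i = ap g (ap h i) := rfl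
theorem ap_one (i : ℕ) : ap 1 i = i := rfl
theorem ap_inv (g : GG) (i : ℕ) : ap g⁻¹ i = ai g i := rfl

instance : Group GG := Group.ofLeftAxioms
  (fun a b c => GG_ext fun i => rfl)
  (fun a => GG_ext fun i => rfl)
  (fun a => GG_ext fun i => by rw [ap_mul, ap_inv, ai_ap, ap_one])

theorem ap_inv_ap (g : GG) (i : ℕ) : ap g⁻¹ (ap g i) = i := ai_ap g i
theorem ap_ap_inv (g : GG) (i : ℕ) : ap g (ap g⁻¹ i) = i := ap_ai g i

instance : IsTopologicalGroup GG where
  continuous_mul := by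
    refine Continuous.subtype_mk (Continuous.prodMk ?_ ?_) _
    · exact continuous_ev.comp ((continuous_fst.comp (continuous_subtype_val.comp continuous_fst)).prodMk
        (continuous_fst.comp (continuous_subtype_val.comp continuous_snd)))
    · exact continuous_ev.comp ((continuous_snd.comp (continuous_subtype_val.comp continuous_snd)).prodMk
        (continuous_snd.comp (continuous_subtype_val.comp continuous_fst)))
  continuous_inv := by
    refine Continuous.subtype_mk (Continuous.prodMk ?_ ?_) _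
    · exact continuous_snd.comp continuous_subtype_val
    · exact continuous_fst.comp continuous_subtype_val

theorem continuous_ap (i : ℕ) : Continuous (fun g : GG => ap g i) :=
  (continuous_apply i).comp (continuous_fst.comp continuous_subtype_val)

/-- pointwise stabilizer of `{0, …, n-1}` -/
def stab (n : ℕ) : Subgroup GG where
  carrier := {g | ∀ i < n, ap g i = i}
  mul_mem' := by
    intro a b ha hb i hi
    rw [ap_mul, hb i hi, ha i hi]
  one_mem' := fun i _ => rfl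
  inv_mem' := by
    intro a ha i hi
    have := ap_inv_ap a i
    rw [ha i hi] at this
    exact this

theorem mem_stab (n : ℕ) (g : GG) : g ∈ stab n ↔ ∀ i < n, ap g i = i := Iff.rfl

theorem isOpen_stab (n : ℕ) : IsOpen (stab n : Set GG) := by
  have : (stab n : Set GG) = ⋂ i ∈ Finset.range n, {g : GG | ap g i = i} := by
    ext g
    simp [mem_stab]
  rw [this]
  apply isOpen_biInter_finset
  intro i _
  exact (isOpen_discrete {i}).preimage (continuous_ap i)

theorem stab_basis (U : Set GG) (hU : U ∈ 𝓝 (1 : GG)) : ∃ n, (stab n : Set GG) ⊆ U := by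
  have hU' : U ∈ Filter.comap (Subtype.val : GSet → (ℕ → ℕ) × (ℕ → ℕ)) (𝓝 (id, id)) := by
    have := nhds_induced (Subtype.val : GSet → (ℕ → ℕ) × (ℕ → ℕ)) (1 : GG)
    rw [show ((1 : GG).1) = (id, id) from rfl] at this
    rw [← this]; exact hU
  obtain ⟨V, hV, hVU⟩ := Filter.mem_comap.1 hU'
  rw [nhds_prod_eq, Filter.mem_prod_iff] at hV
  obtain ⟨V1, hV1, V2, hV2, h12⟩ := hV
  rw [nhds_pi, Filter.mem_pi] at hV1 hV2
  obtain ⟨I, hI, s, hs, hsV⟩ := hV1
  obtain ⟨J, hJ, r, hr, hrV⟩ := hV2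
  obtain ⟨n, hn⟩ : ∃ n : ℕ, ∀ i ∈ I ∪ J, i < n := by
    refine ⟨(hI.union hJ).toFinset.sup id + 1, fun i hi => ?_⟩
    have := Finset.le_sup (f := id) ((hI.union hJ).mem_toFinset.2 hi)
    exact Nat.lt_succ_of_le this
  refine ⟨n, fun g hg => ?_⟩
  apply hVU
  apply h12
  refine ⟨hsV ?_, hrV ?_⟩
  · intro i hi
    have h3 : g.1.1 i = i := hg i (hn i (Or.inl hi))
    show g.1.1 i ∈ s i
    rw [h3]
    exact mem_of_mem_nhds (hs i)
  · intro i hi
    have h3 : g.1.2 i = i := (stab n).inv_mem hg i (hn i (Or.inr hi))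
    show g.1.2 i ∈ r i
    rw [h3]
    exact mem_of_mem_nhds (hr i)

instance : NonarchimedeanGroup GG where
  is_nonarchimedean := by
    intro U hU
    obtain ⟨n, hn⟩ := stab_basis U hU
    exact ⟨⟨stab n, isOpen_stab n⟩, hn⟩

/-- homogeneity, in group form -/
theorem exists_G (P : List (ℕ × ℕ)) (hP : Iso P) : ∃ g : GG, ∀ p ∈ P, ap g p.1 = p.2 := by
  obtain ⟨f, g, h1, h2, h3, h4, _⟩ := hom_ext (fun _ => []) (fun _ => 0) (by simp) univ
    infinite_univ P hP
  exact ⟨mkG f g h1 h2 h3, h4⟩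

theorem exists_G_fix (Y : ℕ → List ℕ) (D : ℕ → ℕ) (hY : ∀ j, ∀ y ∈ Y j, ∀ x < j, dd x y = D j)
    (N : Set ℕ) (hN : N.Infinite) (P : List (ℕ × ℕ)) (hP : Iso P) :
    ∃ g : GG, (∀ p ∈ P, ap g p.1 = p.2) ∧ ∃ N' ⊆ N, N'.Infinite ∧ ∀ j ∈ N', ∀ y ∈ Y j, ap g y = y := by
  obtain ⟨f, g, h1, h2, h3, h4, h5⟩ := hom_ext Y D hY N hN P hP
  exact ⟨mkG f g h1 h2 h3, h4, h5⟩

/-- homogeneity: functions on an initial segment -/
theorem exists_G_fun (n : ℕ) (z : ℕ → ℕ) (h : ∀ a < n, ∀ b < n, dd (z a) (z b) = dd a b) :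
    ∃ g : GG, ∀ a < n, ap g a = z a := by
  obtain ⟨g, hg⟩ := exists_G ((List.range n).map (fun a => (a, z a))) (by
    intro p hp q hq
    rw [List.mem_map] at hp hq
    obtain ⟨a, ha, rfl⟩ := hp
    obtain ⟨b, hb, rfl⟩ := hq
    rw [List.mem_range] at ha hb
    exact (h a ha b hb).symm)
  exact ⟨g, fun a ha => hg (a, z a) (List.mem_map.2 ⟨a, List.mem_range.2 ha, rfl⟩)⟩

/-- two elements with the same type lie in the same double coset of `stab n` -/
theorem double_coset (n : ℕ) (g g' : GG)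
    (h : ∀ a < n, ∀ b < n, dd a (ap g b) = dd a (ap g' b)) :
    ∃ α ∈ stab n, ∃ β ∈ stab n, g' = α * g * β := by
  obtain ⟨α, hα⟩ := exists_G ((List.range n).map (fun a => (a, a)) ++
      (List.range n).map (fun a => (ap g a, ap g' a))) (by
    intro p hp q hq
    rw [List.mem_append, List.mem_map, List.mem_map] at hp hq
    rcases hp with ⟨a, ha, rfl⟩ | ⟨a, ha, rfl⟩ <;> rcases hq with ⟨b, hb, rfl⟩ | ⟨b, hb, rfl⟩
    · rfl
    · rw [List.mem_range] at ha hb
      exact h a ha b hb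
    · rw [List.mem_range] at ha hb
      show dd (ap g a) b = dd (ap g' a) b
      rw [dd_comm _ b, dd_comm _ b]
      exact h b hb a ha
    · show dd (ap g a) (ap g b) = dd (ap g' a) (ap g' b)
      rw [ap_iso, ap_iso])
  have h1 : ∀ a < n, ap α a = a := fun a ha =>
    hα (a, a) (List.mem_append.2 (Or.inl (List.mem_map.2 ⟨a, List.mem_range.2 ha, rfl⟩)))
  have h2 : ∀ a < n, ap α (ap g a) = ap g' a := fun a ha =>
    hα (ap g a, ap g' a) (List.mem_append.2 (Or.inr (List.mem_map.2 ⟨a, List.mem_range.2 ha, rfl⟩)))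
  refine ⟨α, h1, (α * g)⁻¹ * g', ?_, by group⟩
  intro a ha
  rw [ap_mul, ← h2 a ha, ← ap_mul α g, ap_inv_ap]

end Pool.Agent.H753R3.OB
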