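import Mathlib

set_option autoImplicit false

/-!
# Interlacing families in reflexive spaces
-/

namespace Pool.Agent.H753R3.OB

open Filter Topology

section

variable {E : Type*} [NormedAddCommGroup E] [NormedSpace ℝ E]

theorem wstar_exists (U : Ultrafilter ℕ) (g : ℕ → StrongDual ℝ E) (M : ℝ) (hM : 0 ≤ M)
    (hg : ∀ n, ‖g n‖ ≤ M) :
    ∃ G : StrongDual ℝ E, ‖G‖ ≤ M ∧ ∀ x, Tendsto (fun n => g n x) (U : Filter ℕ) (𝓝 (G x)) := by
  have hb : ∀ x n, |g n x| ≤ M * ‖x‖ := fun x n =>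
    le_trans ((g n).le_opNorm x) (mul_le_mul_of_nonneg_right (hg n) (norm_nonneg x))
  have hex : ∀ x, ∃ a ∈ Set.Icc (-(M * ‖x‖)) (M * ‖x‖),
      Tendsto (fun n => g n x) (U : Filter ℕ) (𝓝 a) := by
    intro x
    have := (isCompact_Icc : IsCompact (Set.Icc (-(M * ‖x‖)) (M * ‖x‖))).ultrafilter_le_nhds'
      (U.map (fun n => g n x)) (by
        rw [Ultrafilter.mem_map]
        refine Filter.univ_mem' fun n => ?_
        exact abs_le.1 (hb x n))
    exact this
  choose G hG hT using hex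
  let L : E →ₗ[ℝ] ℝ :=
    { toFun := G
      map_add' := fun x y => by
        refine tendsto_nhds_unique (hT (x + y)) ?_
        have := (hT x).add (hT y)
        refine this.congr fun n => ?_
        rw [map_add]
      map_smul' := fun c x => by
        refine tendsto_nhds_unique (hT (c • x)) ?_
        have := (hT x).const_mul c
        refine this.congr fun n => ?_
        rw [map_smul, smul_eq_mul] }
  refine ⟨L.mkContinuous M (fun x => ?_), LinearMap.mkContinuous_norm_le _ hM _, fun x => hT x⟩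
  show |G x| ≤ M * ‖x‖
  exact abs_le.2 (hG x)

theorem wlim_exists (hr : Function.Surjective (NormedSpace.inclusionInDoubleDual ℝ E))
    (U : Ultrafilter ℕ) (x : ℕ → E) (M : ℝ) (hM : 0 ≤ M) (hx : ∀ n, ‖x n‖ ≤ M) :
    ∃ w : E, ‖w‖ ≤ M ∧ ∀ φ : StrongDual ℝ E, Tendsto (fun n => φ (x n)) (U : Filter ℕ) (𝓝 (φ w)) := by
  obtain ⟨G, hG, hT⟩ := wstar_exists U (fun n => NormedSpace.inclusionInDoubleDual ℝ E (x n)) M hM
    (fun n => le_trans (NormedSpace.double_dual_bound ℝ E (x n)) (hx n))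
  obtain ⟨w, rfl⟩ := hr G
  refine ⟨w, ?_, fun φ => hT φ⟩
  refine NormedSpace.norm_le_dual_bound ℝ w hM (fun f => ?_)
  have := (NormedSpace.inclusionInDoubleDual ℝ E w).le_opNorm f
  exact le_trans this (mul_le_mul_of_nonneg_right hG (norm_nonneg f))

/-- iterated eventually -/
def Ev (U : Ultrafilter ℕ) : ℕ → (List ℕ → Prop) → Prop
  | 0, P => P []
  | k + 1, P => ∀ᶠ n in (U : Filter ℕ), Ev U k (fun l => P (n :: l))

/-- iterated eventually for pairs of interlaced lists -/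
def Ev2 (U : Ultrafilter ℕ) : ℕ → (List ℕ → List ℕ → Prop) → Prop
  | 0, P => P [] []
  | k + 1, P => ∀ᶠ n in (U : Filter ℕ), ∀ᶠ m in (U : Filter ℕ),
      Ev2 U k (fun l l' => P (n :: l) (m :: l'))

theorem Ev_mono (U : Ultrafilter ℕ) (k : ℕ) (P Q : List ℕ → Prop) (h : ∀ l, P l → Q l)
    (hP : Ev U k P) : Ev U k Q := by
  induction k generalizing P Q with
  | zero => exact h _ hP
  | succ k ih => exact Filter.Eventually.mono hP fun n hn => ih _ _ (fun l hl => h _ hl) hn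

theorem Ev_and (U : Ultrafilter ℕ) (k : ℕ) (P Q : List ℕ → Prop)
    (hP : Ev U k P) (hQ : Ev U k Q) : Ev U k (fun l => P l ∧ Q l) := by
  induction k generalizing P Q with
  | zero => exact ⟨hP, hQ⟩
  | succ k ih => exact (Filter.Eventually.and hP hQ).mono fun n hn => ih _ _ hn.1 hn.2

theorem Ev_not (U : Ultrafilter ℕ) (k : ℕ) (P : List ℕ → Prop)
    (hP : ¬ Ev U k P) : Ev U k (fun l => ¬ P l) := by
  induction k generalizing P with
  | zero => exact hP
  | succ k ih =>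
    have h1 : ∀ᶠ n in (U : Filter ℕ), ¬ Ev U k (fun l => P (n :: l)) :=
      Ultrafilter.eventually_not.2 hP
    exact h1.mono fun n hn => ih _ hn

theorem Ev_exists (U : Ultrafilter ℕ) (k : ℕ) (P : List ℕ → Prop)
    (hP : Ev U k P) : ∃ l, P l := by
  induction k generalizing P with
  | zero => exact ⟨_, hP⟩
  | succ k ih =>
    obtain ⟨n, hn⟩ := Filter.Eventually.exists hP
    obtain ⟨l, hl⟩ := ih _ hn
    exact ⟨_, hl⟩

theorem Ev_length (U : Ultrafilter ℕ) (k : ℕ) : Ev U k (fun l => l.length = k) := by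
  induction k with
  | zero => rfl
  | succ k ih =>
    refine Filter.Eventually.of_forall fun n => Ev_mono U k _ _ (fun l hl => ?_) ih
    show (n :: l).length = k + 1
    rw [List.length_cons, hl]

theorem Ev2_mono (U : Ultrafilter ℕ) (k : ℕ) (P Q : List ℕ → List ℕ → Prop)
    (h : ∀ l l', P l l' → Q l l') (hP : Ev2 U k P) : Ev2 U k Q := by
  induction k generalizing P Q with
  | zero => exact h _ _ hP
  | succ k ih =>
    refine Filter.Eventually.mono hP fun n hn => ?_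
    exact Filter.Eventually.mono hn fun m hm => ih _ _ (fun l l' hl => h _ _ hl) hm

theorem Ev2_and (U : Ultrafilter ℕ) (k : ℕ) (P Q : List ℕ → List ℕ → Prop)
    (hP : Ev2 U k P) (hQ : Ev2 U k Q) : Ev2 U k (fun l l' => P l l' ∧ Q l l') := by
  induction k generalizing P Q with
  | zero => exact ⟨hP, hQ⟩
  | succ k ih => exact (Filter.Eventually.and hP hQ).mono fun n hn =>
      (hn.1.and hn.2).mono fun m hm => ih _ _ hm.1 hm.2

theorem Ev2_exists (U : Ultrafilter ℕ) (k : ℕ) (P : List ℕ → List ℕ → Prop)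
    (hP : Ev2 U k P) : ∃ l l', P l l' := by
  induction k generalizing P with
  | zero => exact ⟨_, _, hP⟩
  | succ k ih =>
    obtain ⟨n, hn⟩ := Filter.Eventually.exists hP
    obtain ⟨m, hm⟩ := hn.exists
    obtain ⟨l, l', hl⟩ := ih _ hm
    exact ⟨_, _, hl⟩

theorem Ev2_left (U : Ultrafilter ℕ) (k : ℕ) (P : List ℕ → Prop)
    (hP : Ev U k P) : Ev2 U k (fun l _ => P l) := by
  induction k generalizing P with
  | zero => exact hP
  | succ k ih => exact Filter.Eventually.mono hP fun n hn =>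
      Filter.Eventually.of_forall fun m => ih _ hn

theorem Ev2_length (U : Ultrafilter ℕ) (k : ℕ) :
    Ev2 U k (fun l l' => l.length = k ∧ l'.length = k) := by
  induction k with
  | zero => exact ⟨rfl, rfl⟩
  | succ k ih =>
    refine Filter.Eventually.of_forall fun n => Filter.Eventually.of_forall fun m =>
      Ev2_mono U k _ _ (fun l l' hl => ?_) ih
    show (n :: l).length = k + 1 ∧ (m :: l').length = k + 1
    rw [List.length_cons, hl.1, List.length_cons, hl.2]
    exact ⟨rfl, rfl⟩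

/-- strictly increasing lists with all entries above `m` -/
def Inc : ℕ → List ℕ → Prop
  | _, [] => True
  | m, n :: l => m < n ∧ Inc n l

/-- interlaced pairs of lists -/
def Itl : ℕ → List ℕ → List ℕ → Prop
  | _, [], [] => True
  | m, n :: l, n' :: l' => m < n ∧ n < n' ∧ Itl n' l l'
  | _, [], _ :: _ => False
  | _, _ :: _, [] => False

theorem ev_gt (m : ℕ) : ∀ᶠ n in ((hyperfilter ℕ : Ultrafilter ℕ) : Filter ℕ), m < n := by
  have h : {n : ℕ | m < n} ∈ hyperfilter ℕ := by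
    apply mem_hyperfilter_of_finite_compl
    refine (Set.finite_Iic m).subset fun n hn => ?_
    simpa using hn
  exact h

theorem Ev_Inc (k m : ℕ) : Ev (hyperfilter ℕ) k (Inc m) := by
  induction k generalizing m with
  | zero => trivial
  | succ k ih =>
    refine (ev_gt m).mono fun n hn => Ev_mono _ k _ _ (fun l hl => ?_) (ih n)
    exact ⟨hn, hl⟩

theorem Ev2_Itl (k m : ℕ) : Ev2 (hyperfilter ℕ) k (Itl m) := by
  induction k generalizing m with
  | zero => trivial
  | succ k ih =>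
    refine (ev_gt m).mono fun n hn => (ev_gt n).mono fun n' hn' =>
      Ev2_mono _ k _ _ (fun l l' hl => ?_) (ih n')
    exact ⟨hn, hn', hl⟩

/-- iterated weak limit -/
def IsWL (U : Ultrafilter ℕ) : ℕ → (List ℕ → E) → E → Prop
  | 0, f, w => f [] = w
  | k + 1, f, w => ∃ w' : ℕ → E, (∀ n, IsWL U k (fun l => f (n :: l)) (w' n)) ∧
      ∀ φ : StrongDual ℝ E, Tendsto (fun n => φ (w' n)) (U : Filter ℕ) (𝓝 (φ w))

/-- iterated weak-* limit -/
def IsWS (U : Ultrafilter ℕ) : ℕ → (List ℕ → StrongDual ℝ E) → StrongDual ℝ E → Prop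
  | 0, g, G => g [] = G
  | k + 1, g, G => ∃ G' : ℕ → StrongDual ℝ E, (∀ n, IsWS U k (fun l => g (n :: l)) (G' n)) ∧
      ∀ x : E, Tendsto (fun n => G' n x) (U : Filter ℕ) (𝓝 (G x))

theorem exists_WL (hr : Function.Surjective (NormedSpace.inclusionInDoubleDual ℝ E))
    (U : Ultrafilter ℕ) (k : ℕ) (f : List ℕ → E) (M : ℝ) (hM : 0 ≤ M)
    (hf : ∀ l, l.length = k → ‖f l‖ ≤ M) : ∃ w, ‖w‖ ≤ M ∧ IsWL U k f w := by
  induction k generalizing f with
  | zero => exact ⟨f [], hf [] rfl, rfl⟩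
  | succ k ih =>
    have h1 : ∀ n, ∃ w, ‖w‖ ≤ M ∧ IsWL U k (fun l => f (n :: l)) w := fun n =>
      ih (fun l => f (n :: l)) (fun l hl => hf _ (by rw [List.length_cons, hl]))
    choose w' hw' hW using h1
    obtain ⟨w, hw, hT⟩ := wlim_exists hr U w' M hM hw'
    exact ⟨w, hw, w', hW, hT⟩

theorem exists_WS (U : Ultrafilter ℕ) (k : ℕ) (g : List ℕ → StrongDual ℝ E) (M : ℝ) (hM : 0 ≤ M)
    (hg : ∀ l, ‖g l‖ ≤ M) : ∃ G, ‖G‖ ≤ M ∧ IsWS U k g G := by
  induction k generalizing g with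
  | zero => exact ⟨g [], hg [], rfl⟩
  | succ k ih =>
    have h1 : ∀ n, ∃ w, ‖w‖ ≤ M ∧ IsWS U k (fun l => g (n :: l)) w := fun n =>
      ih (fun l => g (n :: l)) (fun l => hg _)
    choose w' hw' hW using h1
    obtain ⟨w, hw, hT⟩ := wstar_exists U w' M hM hw'
    exact ⟨w, hw, w', hW, hT⟩

theorem WL_sub (U : Ultrafilter ℕ) (k : ℕ) (f : List ℕ → E) (w c : E) (h : IsWL U k f w) :
    IsWL U k (fun l => f l - c) (w - c) := by
  induction k generalizing f w with
  | zero =>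
    show f [] - c = w - c
    rw [show f [] = w from h]
  | succ k ih =>
    obtain ⟨w', h1, h2⟩ := h
    refine ⟨fun n => w' n - c, fun n => ih _ _ (h1 n), fun φ => ?_⟩
    have := (h2 φ).sub_const (φ c)
    rw [map_sub]
    refine this.congr fun n => ?_
    rw [map_sub]

theorem pairing (U : Ultrafilter ℕ) (k : ℕ) (f : List ℕ → E) (g : List ℕ → StrongDual ℝ E)
    (w : E) (G : StrongDual ℝ E) (hw : IsWL U k f w) (hG : IsWS U k g G) (ε : ℝ) (hε : 0 < ε) :
    Ev2 U k (fun l l' => |g l (f l') - G w| < ε) := by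
  induction k generalizing f g w G ε with
  | zero =>
    show |g [] (f []) - G w| < ε
    rw [show f [] = w from hw, show g [] = G from hG]
    simpa using hε
  | succ k ih =>
    obtain ⟨w', h1, h2⟩ := hw
    obtain ⟨G', h3, h4⟩ := hG
    have e1 : ∀ᶠ n in (U : Filter ℕ), |G' n w - G w| < ε / 3 := by
      have := (Metric.tendsto_nhds.1 (h4 w)) (ε / 3) (by linarith)
      exact this
    refine e1.mono fun n hn => ?_
    have e2 : ∀ᶠ m in (U : Filter ℕ), |G' n (w' m) - G' n w| < ε / 3 := by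
      have := (Metric.tendsto_nhds.1 (h2 (G' n))) (ε / 3) (by linarith)
      exact this
    refine e2.mono fun m hm => ?_
    refine Ev2_mono U k _ _ (fun l l' hl => ?_) (ih _ _ _ _ (h1 m) (h3 n) (ε / 3) (by linarith))
    have hl' : |g (n :: l) (f (m :: l')) - G' n (w' m)| < ε / 3 := hl
    show |g (n :: l) (f (m :: l')) - G w| < ε
    rw [abs_lt] at hl' hm hn ⊢
    constructor <;> linarith [hl'.1, hl'.2, hm.1, hm.2, hn.1, hn.2]

/-- Kalton: in a reflexive space, a family indexed by `k`-subsets which moves at most `C` along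
interlaced pairs has far apart members at distance at most `2 (C + 1)`. -/
theorem kalton (hr : Function.Surjective (NormedSpace.inclusionInDoubleDual ℝ E))
    (k : ℕ) (f : List ℕ → E) (M : ℝ) (hM : 0 ≤ M) (hf : ∀ l, l.length = k → ‖f l‖ ≤ M)
    (C : ℝ) (hC : ∀ l l', l.length = k → l'.length = k → Itl 0 l l' → ‖f l - f l'‖ ≤ C) :
    ∃ l l', l.length = k ∧ l'.length = k ∧ Inc 0 l ∧ Inc l.sum l' ∧ ‖f l - f l'‖ ≤ 2 * (C + 1) := by
  obtain ⟨w, _, hw⟩ := exists_WL hr (hyperfilter ℕ) k f M hM hf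
  have key : Ev (hyperfilter ℕ) k (fun l => ‖f l - w‖ ≤ C + 1) := by
    by_contra hne
    have hne' := Ev_not _ _ _ hne
    have hg : ∀ l, ∃ g : StrongDual ℝ E, ‖g‖ ≤ 1 ∧ g (f l - w) = ‖f l - w‖ := fun l =>
      exists_dual_vector'' ℝ (f l - w)
    choose g hg1 hg2 using hg
    obtain ⟨G, _, hG⟩ := exists_WS (hyperfilter ℕ) k g 1 zero_le_one hg1
    have hw0 := WL_sub _ _ _ _ w hw
    rw [sub_self] at hw0
    have hp := pairing (hyperfilter ℕ) k _ g 0 G hw0 hG 1 one_pos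
    obtain ⟨l, l', ⟨⟨h1, h2⟩, h3⟩, h4⟩ := Ev2_exists _ _ _ (Ev2_and _ _ _ _ (Ev2_and _ _ _ _
      (Ev2_and _ _ _ _ hp (Ev2_left _ _ _ hne')) (Ev2_Itl k 0)) (Ev2_length _ k))
    rw [map_zero, sub_zero, abs_lt] at h1
    push Not at h2
    have h5 := hC l l' h4.1 h4.2 h3
    have h6 : g l (f l - w) - g l (f l' - w) ≤ ‖f l - f l'‖ := by
      rw [← map_sub, sub_sub_sub_cancel_right]
      refine le_trans (le_abs_self _) (le_trans ((g l).le_opNorm _) ?_)
      calc ‖g l‖ * ‖f l - f l'‖ ≤ 1 * ‖f l - f l'‖ :=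
            mul_le_mul_of_nonneg_right (hg1 l) (norm_nonneg _)
        _ = _ := one_mul _
    rw [hg2 l] at h6
    linarith [h1.2]
  obtain ⟨l, ⟨h1, h2⟩, h3⟩ := Ev_exists _ _ _ (Ev_and _ _ _ _ (Ev_and _ _ _ _ key (Ev_length _ k))
    (Ev_Inc k 0))
  obtain ⟨l', ⟨h1', h2'⟩, h3'⟩ := Ev_exists _ _ _ (Ev_and _ _ _ _ (Ev_and _ _ _ _ key
    (Ev_length _ k)) (Ev_Inc k l.sum))
  refine ⟨l, l', h2, h2', h3, h3', ?_⟩
  calc ‖f l - f l'‖ = ‖(f l - w) - (f l' - w)‖ := by rw [sub_sub_sub_cancel_right]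
    _ ≤ ‖f l - w‖ + ‖f l' - w‖ := norm_sub_le _ _
    _ ≤ 2 * (C + 1) := by linarith

end

end Pool.Agent.H753R3.OB
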