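import Pool.Agent.H753R3.OB.Kalton
import Pool.Agent.H753R3.OB.Grp

set_option autoImplicit false

/-!
# The interlacing metric on lists
-/

namespace Pool.Agent.H753R3.OB

/-- number of entries above `t` -/
def cnt (l : List ℕ) (t : ℕ) : ℕ := l.countP (fun i => decide (t < i))

theorem cnt_cons (n : ℕ) (l : List ℕ) (t : ℕ) :
    cnt (n :: l) t = cnt l t + if t < n then 1 else 0 := by
  unfold cnt
  rw [List.countP_cons]
  simp

theorem cnt_le (l : List ℕ) (t : ℕ) : cnt l t ≤ l.length := List.countP_le_length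

theorem Itl_cnt (m : ℕ) (l l' : List ℕ) (h : Itl m l l') (t : ℕ) :
    cnt l t ≤ cnt l' t ∧ cnt l' t ≤ cnt l t + 1 ∧ (t ≤ m → cnt l t = cnt l' t) := by
  induction l generalizing m l' with
  | nil =>
    cases l' with
    | nil => exact ⟨le_rfl, by omega, fun _ => rfl⟩
    | cons n' l' => exact absurd h (by simp [Itl])
  | cons n l ih =>
    cases l' with
    | nil => exact absurd h (by simp [Itl])
    | cons n' l' =>
      obtain ⟨h1, h2, h3⟩ := h
      obtain ⟨i1, i2, i3⟩ := ih n' l' h3
      rw [cnt_cons, cnt_cons]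
      by_cases a : t < n
      · have b : t < n' := by omega
        have := i3 (by omega)
        rw [if_pos a, if_pos b]
        refine ⟨by omega, by omega, fun _ => by omega⟩
      · by_cases b : t < n'
        · have := i3 (by omega)
          rw [if_neg a, if_pos b]
          refine ⟨by omega, by omega, fun hm => by omega⟩
        · rw [if_neg a, if_neg b]
          refine ⟨by omega, by omega, fun hm => by omega⟩

/-- the interlacing (sup) metric -/
noncomputable def dI (l l' : List ℕ) : ℕ := ⨆ t, ((cnt l t : ℤ) - cnt l' t).natAbs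

theorem dI_bdd (l l' : List ℕ) :
    BddAbove (Set.range fun t => ((cnt l t : ℤ) - cnt l' t).natAbs) := by
  refine ⟨l.length + l'.length, ?_⟩
  rintro _ ⟨t, rfl⟩
  have h1 := cnt_le l t
  have h2 := cnt_le l' t
  show ((cnt l t : ℤ) - cnt l' t).natAbs ≤ _
  omega

theorem le_dI (l l' : List ℕ) (t : ℕ) : ((cnt l t : ℤ) - cnt l' t).natAbs ≤ dI l l' :=
  le_ciSup (dI_bdd l l') t

theorem dI_le (l l' : List ℕ) (B : ℕ) (h : ∀ t, ((cnt l t : ℤ) - cnt l' t).natAbs ≤ B) :
    dI l l' ≤ B := ciSup_le h

theorem dI_comm (l l' : List ℕ) : dI l l' = dI l' l := by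
  apply le_antisymm
  · apply dI_le; intro t; have := le_dI l' l t; omega
  · apply dI_le; intro t; have := le_dI l l' t; omega

theorem dI_tri (l l' l'' : List ℕ) : dI l l'' ≤ dI l l' + dI l' l'' := by
  apply dI_le
  intro t
  have h1 := le_dI l l' t
  have h2 := le_dI l' l'' t
  omega

theorem dI_le_max (l l' : List ℕ) (k : ℕ) (h : l.length ≤ k) (h' : l'.length ≤ k) : dI l l' ≤ k := by
  apply dI_le
  intro t
  have h1 := cnt_le l t
  have h2 := cnt_le l' t
  omega

theorem dI_itl (l l' : List ℕ) (h : Itl 0 l l') : dI l l' ≤ 1 := by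
  apply dI_le
  intro t
  obtain ⟨h1, h2, _⟩ := Itl_cnt 0 l l' h t
  omega

theorem cnt_inc (m : ℕ) (l : List ℕ) (h : Inc m l) (t : ℕ) (ht : t ≤ m) : cnt l t = l.length := by
  induction l generalizing m with
  | nil => rfl
  | cons n l ih =>
    obtain ⟨h1, h2⟩ := h
    rw [cnt_cons, if_pos (by omega), ih n h2 (by omega), List.length_cons]

theorem cnt_sum (l : List ℕ) (t : ℕ) (ht : l.sum ≤ t) : cnt l t = 0 := by
  induction l with
  | nil => rfl
  | cons n l ih =>
    rw [List.sum_cons] at ht
    rw [cnt_cons, if_neg (by omega), ih (by omega)]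

theorem dI_far (l l' : List ℕ) (k : ℕ) (h : l.length = k) (h' : l'.length = k)
    (hinc : Inc l.sum l') : dI l l' = k := by
  apply le_antisymm (dI_le_max l l' k h.le h'.le)
  have h1 := le_dI l l' l.sum
  rw [cnt_sum l l.sum le_rfl, cnt_inc l.sum l' hinc l.sum le_rfl, h'] at h1
  omega

/-- the metric on copies of `{0, …, n-1}` indexed by lists -/
noncomputable def dT (n K : ℕ) (p q : List ℕ × Fin n) : ℕ :=
  open Classical in
  if p.1 = q.1 then dd p.2 q.2 else K * max 1 (dI p.1 q.1)

theorem exists_copies (n K : ℕ) (hn : 0 < n) (hK : ∀ a < n, ∀ b < n, dd a b ≤ K) :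
    ∃ g : List ℕ → GG, ∀ l l' : List ℕ, l ≠ l' → ∀ a < n, ∀ b < n,
      dd (ap (g l) a) (ap (g l') b) = K * max 1 (dI l l') := by
  classical
  have : Nonempty (List ℕ × Fin n) := ⟨([], ⟨0, hn⟩)⟩
  obtain ⟨e, he⟩ := embed (T := List ℕ × Fin n) (dT n K)
    (by intro p; unfold dT; rw [if_pos rfl, dd_self])
    (by
      intro p q
      unfold dT
      by_cases h : p.1 = q.1
      · rw [if_pos h, if_pos h.symm, dd_comm]
      · rw [if_neg h, if_neg (fun h' => h h'.symm), dI_comm])
    (by
      intro p q r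
      unfold dT
      have hb : ∀ a b : Fin n, dd a b ≤ K := fun a b => hK a a.2 b b.2
      have hpos : ∀ x : ℕ, K ≤ K * max 1 x := fun x =>
        Nat.le_mul_of_pos_right K (by omega)
      by_cases h : p.1 = q.1 <;> by_cases h' : q.1 = r.1
      · rw [if_pos h, if_pos h', if_pos (h.trans h')]
        exact dd_tri _ _ _
      · rw [if_pos h, if_neg h', if_neg (fun hh => h' (h ▸ hh)), h]
        omega
      · rw [if_neg h, if_pos h', if_neg (fun hh => h (hh.trans h'.symm)), h']
        omega
      · rw [if_neg h, if_neg h']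
        by_cases h'' : p.1 = r.1
        · rw [if_pos h'']
          have := hb p.2 r.2
          have := hpos (dI p.1 q.1)
          omega
        · rw [if_neg h'', ← mul_add]
          apply Nat.mul_le_mul_left
          have := dI_tri p.1 q.1 r.1
          omega)
  have hg : ∀ l : List ℕ, ∃ g : GG, ∀ a (ha : a < n), ap g a = e (l, ⟨a, ha⟩) := by
    intro l
    obtain ⟨g, hg⟩ := exists_G_fun n (fun a => if h : a < n then e (l, ⟨a, h⟩) else 0) (by
      intro a ha b hb
      rw [dif_pos ha, dif_pos hb, he]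
      unfold dT
      rw [if_pos rfl])
    exact ⟨g, fun a ha => by rw [hg a ha, dif_pos ha]⟩
  choose g hg using hg
  refine ⟨g, fun l l' hl a ha b hb => ?_⟩
  rw [hg l a ha, hg l' b hb, he]
  unfold dT
  rw [if_neg hl]

end Pool.Agent.H753R3.OB
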