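import Pool.Agent.H753R3.OB.Grp

set_option autoImplicit false

/-!
# The natural action has an unbounded orbit
-/

namespace Pool.Agent.H753R3.OB

open Set Topology

/-- the countable metric space `(ℕ, dd)` -/
@[ext] structure ZZ where
  /-- underlying number -/
  v : ℕ

noncomputable instance : MetricSpace ZZ where
  dist x y := (dd x.v y.v : ℝ)
  dist_self x := by
    show ((dd x.v x.v : ℕ) : ℝ) = 0
    rw [dd_self]; simp
  dist_comm x y := by
    show ((dd x.v y.v : ℕ) : ℝ) = (dd y.v x.v : ℕ)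
    rw [dd_comm]
  dist_triangle x y z := by
    show ((dd x.v z.v : ℕ) : ℝ) ≤ (dd x.v y.v : ℕ) + (dd y.v z.v : ℕ)
    exact_mod_cast dd_tri x.v y.v z.v
  eq_of_dist_eq_zero := by
    intro x y h
    have h' : ((dd x.v y.v : ℕ) : ℝ) = 0 := h
    exact ZZ.ext (dd_sep x.v y.v (by exact_mod_cast h'))

theorem dist_ZZ (x y : ZZ) : dist x y = (dd x.v y.v : ℝ) := rfl

/-- the natural action -/
noncomputable def act : GG →* (ZZ ≃ᵢ ZZ) where
  toFun g :=
    { toFun := fun x => ⟨ap g x.v⟩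
      invFun := fun x => ⟨ap g⁻¹ x.v⟩
      left_inv := fun x => ZZ.ext (ap_inv_ap g x.v)
      right_inv := fun x => ZZ.ext (ap_ap_inv g x.v)
      isometry_toFun := Isometry.of_dist_eq fun x y => by
        rw [dist_ZZ, dist_ZZ, ap_iso] }
  map_one' := by ext x; rfl
  map_mul' g h := by ext x; rfl

theorem act_v (g : GG) (x : ZZ) : (act g x) = ⟨ap g x.v⟩ := rfl

theorem act_continuous (x : ZZ) : Continuous (fun g : GG => act g x) := by
  have h1 : Continuous (fun n : ℕ => (⟨n⟩ : ZZ)) := continuous_of_discreteTopology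
  exact h1.comp (continuous_ap x.v)

theorem act_unbounded : ¬ Bornology.IsBounded (Set.range (fun g : GG => act g ⟨0⟩)) := by
  intro hb
  obtain ⟨C, hC⟩ := Metric.isBounded_iff.1 hb
  obtain ⟨n, hn⟩ := exists_nat_gt C
  obtain ⟨z, hz1, hz2⟩ := free_copy [0] 1 n (by
    intro x hx y hy
    rw [List.mem_singleton] at hx hy
    rw [hx, hy, dd_self]; omega) (by
    intro a ha b hb
    have : a = b := by omega
    rw [this, dd_self]; omega)
  obtain ⟨g, hg⟩ := exists_G_fun 1 z hz1
  have h1 := hC ⟨1, rfl⟩ ⟨g, rfl⟩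
  have h2 : dist (act 1 ⟨0⟩) (act g ⟨0⟩) = (n : ℝ) := by
    rw [dist_ZZ, act_v, act_v, ap_one, hg 0 one_pos, hz2 0 one_pos 0 (List.mem_singleton.2 rfl)]
  rw [h2] at h1
  linarith

end Pool.Agent.H753R3.OB
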